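import Pool.Agent.helper55.VDI.SpecB1
import Pool.Agent.helper32.VD.EED

/-! Row vdi:EEBB: the error of the equation of the coefficients is tiny. -/

set_option autoImplicit false

open scoped ContDiff Topology InnerProductSpace ComplexConjugate ENNReal
open MeasureTheory Filter Set

namespace Pool.Agent.VDI

open Pool.Agent.VD
open Pool.Agent.VQ (CH KZ PS perZ cmZ)
open Pool.Agent.RPQ (IsOp)
open Pool.Agent.VDA (STP FB FR FT nY OY OA)
open Pool.Agent.VDE (FDX)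

noncomputable section

variable {d : ℕ}

lemma EEBB_core (hEHG : EHG_stmt) (hEHC : EHC_stmt) (G G' : V d → V d →L[ℝ] V d) (hG : IsMetric G) (hG' : IsMetric G')
    (hdc : Continuous (dens G)) (hdc' : Continuous (dens G')) (R C1 M : ℝ) (u ψ : V d → ℂ) (hu : ContDiff ℝ 2 u)
    (hψ : ContDiff ℝ 2 ψ) (hs : ∀ w, ψ w ≠ 0 → ‖w‖ ≤ C1) (hq : Continuous (Hop G' R u))
    (hb : ∀ z, ‖z‖ ≤ C1 → ‖((dens G z : ℝ) : ℂ) * Hop G R ψ z - ((dens G' z : ℝ) : ℂ) * Hop G' R ψ z‖ * ‖u z‖ +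
      |dens G' z - dens G z| * ‖Hop G' R u z‖ * ‖ψ z‖ ≤ M * ‖u z‖) :
    ‖∫ z, dens G z • (u z * conj (Hop G R ψ z) - Hop G' R u z * conj (ψ z))‖ ≤
      M * ∫ z in Metric.closedBall (0 : V d) C1, ‖u z‖ := by
  have hts : tsupport ψ ⊆ Metric.closedBall (0 : V d) C1 := by
    refine closure_minimal (fun w hw => ?_) Metric.isClosed_closedBall
    exact mem_closedBall_zero_iff.mpr (hs w hw)
  have hc : HasCompactSupport ψ := (isCompact_closedBall (0 : V d) C1).of_isClosed_subset (isClosed_tsupport ψ) hts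
  have hH : ∀ (g : V d → V d →L[ℝ] V d) (z : V d), z ∉ tsupport ψ → Hop g R ψ z = 0 := by
    intro g z hz
    unfold Hop
    rw [EED_lapz g _ z hz, image_eq_zero_of_notMem_tsupport hz]
    simp
  have hHc : ∀ g : V d → V d →L[ℝ] V d, IsMetric g → Continuous (Hop g R ψ) := by
    intro g hg
    obtain ⟨hC, -⟩ := hEHC d g hg
    have h1 := (hC ψ hψ).1
    unfold Hop
    exact continuous_const.mul (h1.neg.sub (continuous_const.mul hψ.continuous))
  have hHs : ∀ g : V d → V d →L[ℝ] V d, HasCompactSupport (Hop g R ψ) := fun g =>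
    HasCompactSupport.intro hc.isCompact fun z hz => hH g z hz
  have gen : ∀ (ρ : V d → ℝ) (v f : V d → ℂ), Continuous ρ → Continuous v → Continuous f → HasCompactSupport f →
      Integrable fun z => ρ z • (v z * conj (f z)) := by
    intro ρ v f hρ hv hf hfs
    have hcs : HasCompactSupport fun z => conj (f z) := hfs.comp_left (map_zero _)
    exact (hρ.smul (hv.mul (Complex.continuous_conj.comp hf))).integrable_of_hasCompactSupport
      (hcs.mul_left.smul_left)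
  have i1 := gen (dens G) u (Hop G R ψ) hdc hu.continuous (hHc G hG) (hHs G)
  have i2 := gen (dens G) (Hop G' R u) ψ hdc hq hψ.continuous hc
  have i3 := gen (dens G') u (Hop G' R ψ) hdc' hu.continuous (hHc G' hG') (hHs G')
  have i4 := gen (dens G') (Hop G' R u) ψ hdc' hq hψ.continuous hc
  have hgr := EED_green hEHG hEHC G' hG' hdc' R u ψ hu hψ hc
  have e1 : ∫ z, dens G z • (u z * conj (Hop G R ψ z) - Hop G' R u z * conj (ψ z)) =
      ∫ z, ((dens G z • (u z * conj (Hop G R ψ z)) - dens G z • (Hop G' R u z * conj (ψ z))) -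
        (dens G' z • (u z * conj (Hop G' R ψ z)) - dens G' z • (Hop G' R u z * conj (ψ z)))) := by
    have i12 : Integrable fun z => dens G z • (u z * conj (Hop G R ψ z)) - dens G z • (Hop G' R u z * conj (ψ z)) :=
      i1.sub i2
    have i34 : Integrable fun z => dens G' z • (u z * conj (Hop G' R ψ z)) - dens G' z • (Hop G' R u z * conj (ψ z)) :=
      i3.sub i4
    rw [integral_sub i12 i34, integral_sub i3 i4, hgr, sub_self, sub_zero]
    refine integral_congr_ae (Eventually.of_forall fun z => ?_)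
    exact smul_sub _ _ _
  rw [e1]
  have hint : Integrable ((Metric.closedBall (0 : V d) C1).indicator fun z => M * ‖u z‖) := by
    rw [integrable_indicator_iff Metric.isClosed_closedBall.measurableSet]
    exact (continuous_const.mul hu.continuous.norm).continuousOn.integrableOn_compact (isCompact_closedBall _ _)
  have hfin : ∫ z, (Metric.closedBall (0 : V d) C1).indicator (fun z => M * ‖u z‖) z =
      M * ∫ z in Metric.closedBall (0 : V d) C1, ‖u z‖ := by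
    rw [integral_indicator Metric.isClosed_closedBall.measurableSet, integral_const_mul]
  rw [← hfin]
  refine norm_integral_le_of_norm_le hint (Eventually.of_forall fun z => ?_)
  by_cases hz : z ∈ Metric.closedBall (0 : V d) C1
  · rw [indicator_of_mem hz]
    have e2 : ((dens G z • (u z * conj (Hop G R ψ z)) - dens G z • (Hop G' R u z * conj (ψ z))) -
        (dens G' z • (u z * conj (Hop G' R ψ z)) - dens G' z • (Hop G' R u z * conj (ψ z)))) =
        conj (((dens G z : ℝ) : ℂ) * Hop G R ψ z - ((dens G' z : ℝ) : ℂ) * Hop G' R ψ z) * u z +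
          ((dens G' z - dens G z : ℝ) : ℂ) * Hop G' R u z * conj (ψ z) := by
      simp only [map_sub, map_mul, Complex.conj_ofReal, Complex.real_smul]
      push_cast
      ring
    rw [e2]
    refine (norm_add_le _ _).trans ?_
    rw [norm_mul, norm_mul, norm_mul, RCLike.norm_conj, RCLike.norm_conj, Complex.norm_real, Real.norm_eq_abs]
    exact hb z (mem_closedBall_zero_iff.mp hz)
  · rw [indicator_of_notMem hz]
    have hz' : z ∉ tsupport ψ := fun h => hz (hts h)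
    rw [hH G z hz', hH G' z hz', image_eq_zero_of_notMem_tsupport hz']
    simp

theorem EEBB_proof (hLPA : LPA_stmt) (hLPB : LPB_stmt) (hBCB : BCB_stmt) (hUBL : UBL_stmt) (hEHG : EHG_stmt)
    (hEHC : EHC_stmt) (hEYP : EYP_stmt) (hAVOL : AVOL_stmt) (hABRD : ABRD_stmt) (hABMR : ABMR_stmt)
    (hAMVI : AMVI_stmt) : EEBB_stmt := by
  intro d Γ _ _ K k B b r0 χ hK hχ
  obtain ⟨C1, hC1, hB⟩ := hBCB d Γ K k B r0 hK
  obtain ⟨C2, hC2, hL⟩ := hLPB d Γ K k B b C1 hK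
  obtain ⟨C3, hC3, hA3⟩ := hLPA d Γ K k B b C1
  obtain ⟨C4, hC4, hU⟩ := hUBL d Γ K k B C1 hK
  obtain ⟨C6, hC6, hVo⟩ := hAVOL d Γ K k B r0 1 hK
  refine ⟨max C1 8, le_max_of_le_left hC1, ?_⟩
  intro ch A hch hA
  have h8 : (8 : ℝ) ≤ max C1 8 := le_max_right _ _
  obtain ⟨hz, hzz, hz1, hz12, hz2, hz3, hz4, -⟩ := EAM1 hA (le_max_of_le_left hC1)
  have hz28 : A.z2 ≤ 1 / 8 := by nlinarith
  have hz8 : A.z1 ≤ 1 / 8 := by linarith
  have hz08 : A.z ≤ 1 / 8 := by linarith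
  have hz1C : C1 * A.z1 ≤ 1 := by
    have h1 : C1 * A.z1 ≤ max C1 8 * A.z1 := mul_le_mul_of_nonneg_right (le_max_left _ _) hz1.le
    nlinarith
  obtain ⟨R1, hR1, hB'⟩ := hB ch A.z1 hch hz1 hz1C
  obtain ⟨R2, hR2, hcR⟩ := hABRD d ch A.z hch hz hz08
  obtain ⟨κ, hκ⟩ : ∃ κ : ℝ, (C2 + 2 * C3) * C4 = κ := ⟨_, rfl⟩
  have hκ0 : 0 ≤ κ := by rw [← hκ]; positivity
  refine ⟨max (max R1 R2) (κ ^ 2 * C6), le_max_of_le_left (le_max_of_le_left hR1), ?_⟩
  intro R t F G G' Φ f u hR hF hOK hN hAp ht0 ht1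
  have hRR1 : R1 ≤ R := (le_max_left _ _).trans ((le_max_left _ _).trans hR)
  have hRR2 : R2 ≤ R := (le_max_right _ _).trans ((le_max_left _ _).trans hR)
  have hRR3 : κ ^ 2 * C6 ≤ R := (le_max_right _ _).trans hR
  have h1R : 1 ≤ R := hR1.trans hRR1
  have hRp : 0 < R := by linarith
  obtain ⟨-, -, -, -, -, -, -, -, hcp, hcb, -⟩ := hcR R hRR2
  obtain ⟨hcount, hd, -, -, -, -, -, -, -⟩ := hAMVI d Γ K k B G hK hOK.cls
  obtain ⟨-, hd', -, -, -, -, -, -, -⟩ := hAMVI d Γ K k B G' hK hN.cls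
  obtain ⟨b1, -, -, -, -, -, -, -⟩ := hABMR d Γ K k B G Φ 1 1 (Complex.I • 1) ch A.z1 R hOK EED_lag hch
    hz1 hz8 h1R
  have hLx : 0 ≤ R ^ (-LX d) := Real.rpow_nonneg hRp.le _
  have hR4 : 0 ≤ R ^ (4 : ℝ) := Real.rpow_nonneg hRp.le _
  have hnn : 0 ≤ nn G F u := integral_nonneg fun z => sq_nonneg _
  have h100 : R ^ (1 / 100 : ℝ) ≤ R := by
    calc R ^ (1 / 100 : ℝ) ≤ R ^ (1 : ℝ) := Real.rpow_le_rpow_of_exponent_le h1R (by norm_num)
      _ = R := Real.rpow_one R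
  -- the pointwise bound
  have key : ∀ p ∈ WP G r0 2 R, ‖eB G Φ χ ch A.z A.z1 R u (Hop G' R u) t p‖ ≤ κ * R ^ (-1 : ℝ) * Real.sqrt (nn G F u) := by
    intro p hp
    have hBp := fun w => hB' R t G Φ p w hRR1 hOK hp (by rw [abs_of_nonneg ht0]; exact ht1)
    obtain ⟨ψ, hψd⟩ : ∃ ψ : V d → ℂ, bt G Φ ch A.z1 R 1 (Complex.I • 1) p t = ψ := ⟨_, rfl⟩
    have hψ : ContDiff ℝ 2 ψ := by
      rw [← hψd]
      exact contDiff_infty.mp (b1 p t) 2
    have hpsi : ∀ w, ‖ψ w‖ + ‖fderiv ℝ ψ w‖ + ‖fderiv ℝ (fderiv ℝ ψ) w‖ ≤ R ^ (4 : ℝ) ∧ (ψ w ≠ 0 → ‖w‖ ≤ C1) := by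
      intro w
      have h := hBp w
      rw [hψd] at h
      exact h
    have hcore := EEBB_core hEHG hEHC G G' hOK.cls.met hN.cls.met hd.continuous hd'.continuous R C1
      ((C2 + 2 * C3) * (R ^ (-LX d) * (R * R ^ (4 : ℝ)))) u ψ hAp.cd hψ (fun w => (hpsi w).2) hAp.hh.cont (by
        intro z hz
        obtain ⟨h1, -⟩ := hpsi z
        have h2 := hL R G G' ψ z h1R hOK.cls hN hψ hz
        have h3 := (hA3 R G G' z h1R hOK.cls hN hz).1
        have h4 := hAp.bd z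
        have h5 : ‖ψ z‖ ≤ R ^ (4 : ℝ) := by
          have e1 := norm_nonneg (fderiv ℝ ψ z)
          have e2 := norm_nonneg (fderiv ℝ (fderiv ℝ ψ) z)
          linarith
        have hu0 := norm_nonneg (u z)
        have h6 : ‖Hop G' R u z‖ ≤ 2 * R * ‖u z‖ := by
          refine h4.trans (mul_le_mul_of_nonneg_right ?_ hu0)
          linarith
        have h7 : ‖((dens G z : ℝ) : ℂ) * Hop G R ψ z - ((dens G' z : ℝ) : ℂ) * Hop G' R ψ z‖ ≤
            C2 * R * R ^ (-LX d) * R ^ (4 : ℝ) :=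
          h2.trans (mul_le_mul_of_nonneg_left h1 (by positivity))
        have h8 : |dens G' z - dens G z| ≤ C3 * R ^ (-LX d) := by
          rw [abs_sub_comm]
          exact h3
        calc ‖((dens G z : ℝ) : ℂ) * Hop G R ψ z - ((dens G' z : ℝ) : ℂ) * Hop G' R ψ z‖ * ‖u z‖ +
              |dens G' z - dens G z| * ‖Hop G' R u z‖ * ‖ψ z‖ ≤
            C2 * R * R ^ (-LX d) * R ^ (4 : ℝ) * ‖u z‖ + C3 * R ^ (-LX d) * (2 * R * ‖u z‖) * R ^ (4 : ℝ) := by
              refine add_le_add (mul_le_mul_of_nonneg_right h7 hu0) ?_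
              exact mul_le_mul (mul_le_mul h8 h6 (norm_nonneg _) (by positivity)) h5 (norm_nonneg _) (by positivity)
          _ = (C2 + 2 * C3) * (R ^ (-LX d) * (R * R ^ (4 : ℝ))) * ‖u z‖ := by ring)
    have hub := (hU G F u hOK.cls hF hAp.fh).2
    have hM0 : 0 ≤ (C2 + 2 * C3) * (R ^ (-LX d) * (R * R ^ (4 : ℝ))) := by positivity
    have h9 := hcore.trans (mul_le_mul_of_nonneg_left hub hM0)
    have hpw : R ^ (3 * (d : ℝ) / 4) * (R ^ (-LX d) * (R * R ^ (4 : ℝ))) ≤ R ^ (-1 : ℝ) := by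
      have e : R ^ (3 * (d : ℝ) / 4) * (R ^ (-LX d) * (R * R ^ (4 : ℝ))) = R ^ (3 * (d : ℝ) / 4 + (-LX d + (1 + 4))) := by
        rw [Real.rpow_add hRp, Real.rpow_add hRp, Real.rpow_add hRp, Real.rpow_one]
      rw [e]
      refine Real.rpow_le_rpow_of_exponent_le h1R ?_
      unfold LX
      have : (0 : ℝ) ≤ d := Nat.cast_nonneg d
      linarith
    unfold eB
    rw [hψd, norm_mul, Complex.norm_real, Real.norm_eq_abs, abs_mul]
    have hχ1 : |χ p.1| ≤ 1 := by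
      rw [abs_of_nonneg (hχ.bd p.1).1]
      exact (hχ.bd p.1).2
    have hc1 : |cR d ch A.z R| ≤ R ^ (3 * (d : ℝ) / 4) := by
      rw [abs_of_pos hcp]
      exact hcb
    have h10 : |χ p.1| * |cR d ch A.z R| ≤ R ^ (3 * (d : ℝ) / 4) := by
      calc |χ p.1| * |cR d ch A.z R| ≤ 1 * R ^ (3 * (d : ℝ) / 4) := mul_le_mul hχ1 hc1 (abs_nonneg _) zero_le_one
        _ = _ := one_mul _
    have hs0 := Real.sqrt_nonneg (nn G F u)
    calc |χ p.1| * |cR d ch A.z R| * ‖∫ z, dens G z • (u z * conj (Hop G R ψ z) - Hop G' R u z * conj (ψ z))‖ ≤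
          R ^ (3 * (d : ℝ) / 4) * ((C2 + 2 * C3) * (R ^ (-LX d) * (R * R ^ (4 : ℝ))) * (C4 * Real.sqrt (nn G F u))) :=
          mul_le_mul h10 h9 (norm_nonneg _) (Real.rpow_nonneg hRp.le _)
      _ = κ * (R ^ (3 * (d : ℝ) / 4) * (R ^ (-LX d) * (R * R ^ (4 : ℝ)))) * Real.sqrt (nn G F u) := by
          rw [← hκ]
          ring
      _ ≤ κ * R ^ (-1 : ℝ) * Real.sqrt (nn G F u) :=
          mul_le_mul_of_nonneg_right (mul_le_mul_of_nonneg_left hpw hκ0) hs0
  -- the volume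
  have := hcount
  obtain ⟨mW, -, -, -, -, y6, -⟩ := hEYP d Γ G r0 2 R hOK.cls.met
  have hvol : volume (WP G r0 2 R) ≤ ENNReal.ofReal C6 := by
    have h1 := (hVo R G Φ h1R hOK ((1, 0) : YS Γ d) 0 0 1 one_pos).2.1
    have h2 := y6 (fun _ => 1)
    rw [setLIntegral_one, setLIntegral_one] at h2
    rw [← h2]
    refine (measure_mono fun y hy => ?_).trans h1
    refine ⟨hy.2, ?_⟩
    have h3 : y.1 = 1 := hy.1
    have h4 : ((1, 0) : YS Γ d).1⁻¹ * y.1 = 1 := by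
      rw [h3]
      show (1 : Γ)⁻¹ * 1 = 1
      rw [inv_one, one_mul]
    show ((1, 0) : YS Γ d).1⁻¹ * y.1 ∈ SG Γ d 1
    rw [h4]
    exact ⟨0, by simp, by simp⟩
  have hm0 : 0 ≤ κ * R ^ (-1 : ℝ) * Real.sqrt (nn G F u) := by positivity
  calc ∫⁻ p in WP G r0 2 R, ‖eB G Φ χ ch A.z A.z1 R u (Hop G' R u) t p‖ₑ ^ 2 ≤
        ∫⁻ _ in WP G r0 2 R, ENNReal.ofReal ((κ * R ^ (-1 : ℝ) * Real.sqrt (nn G F u)) ^ 2) := by
        refine setLIntegral_mono' mW fun p hp => ?_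
        rw [← ofReal_norm, ← ENNReal.ofReal_pow (norm_nonneg _)]
        exact ENNReal.ofReal_le_ofReal (pow_le_pow_left₀ (norm_nonneg _) (key p hp) 2)
    _ = ENNReal.ofReal ((κ * R ^ (-1 : ℝ) * Real.sqrt (nn G F u)) ^ 2) * volume (WP G r0 2 R) := setLIntegral_const _ _
    _ ≤ ENNReal.ofReal ((κ * R ^ (-1 : ℝ) * Real.sqrt (nn G F u)) ^ 2) * ENNReal.ofReal C6 := by gcongr
    _ = ENNReal.ofReal ((κ * R ^ (-1 : ℝ) * Real.sqrt (nn G F u)) ^ 2 * C6) := (ENNReal.ofReal_mul (sq_nonneg _)).symm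
    _ ≤ ENNReal.ofReal (R ^ (-1 : ℝ) * nn G F u) := by
        refine ENNReal.ofReal_le_ofReal ?_
        have hRm : R ^ (-1 : ℝ) = R⁻¹ := Real.rpow_neg_one R
        rw [mul_pow, mul_pow, Real.sq_sqrt hnn, hRm]
        have h5 : κ ^ 2 * C6 * R⁻¹ ≤ 1 := by
          rw [← div_eq_mul_inv, div_le_one hRp]
          exact hRR3
        have hRi : 0 ≤ R⁻¹ := inv_nonneg.2 hRp.le
        calc κ ^ 2 * R⁻¹ ^ 2 * nn G F u * C6 = (κ ^ 2 * C6 * R⁻¹) * (R⁻¹ * nn G F u) := by ring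
          _ ≤ 1 * (R⁻¹ * nn G F u) := mul_le_mul_of_nonneg_right h5 (mul_nonneg hRi hnn)
          _ = _ := one_mul _

end

end Pool.Agent.VDI
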