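import Pool.Agent.helper74.VDI.SpecA
import Pool.Agent.helper11.VD.TLDb

/-! Row vdi:TLDI: tails of the random series with a slack (copy of helper11/VD/TLDb.lean with other constants). -/

set_option autoImplicit false

open scoped ContDiff Topology InnerProductSpace ENNReal ComplexConjugate
open MeasureTheory Filter Set

namespace Pool.Agent.VDI

open Pool.Agent.RPQ (PN PJ UN upd)
open Pool.Agent.VQ (CH rk)
open Pool.Agent.VN (aN TLN_pow)
open Pool.Agent.VD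

theorem TLDI_proof (hSRD : SRD_stmt) : TLDI_stmt := by
  intro d Γ _ _ K0 C k0 J p χ hFd hF
  -- the levels
  have hχ : ∀ (k : ℕ) (j : Fin (J k)), ContDiff ℝ ∞ (χ k j) ∧ Inv Γ (χ k j) := by
    intro k j
    rcases lt_or_ge k k0 with hk | hk
    · exfalso
      have h1 := j.2
      have h2 := hF.zero k hk
      omega
    · exact ⟨(hF.net k hk).smooth j, (hF.net k hk).inv j⟩
  have hcd : ∀ (ζ : ℕ × ℕ → ℝ) (k : ℕ), ContDiff ℝ ∞ (lD χ ζ k) := fun ζ k => TLE_cd _ _ _ fun j => (hχ k j).1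
  have hinv : ∀ (ζ : ℕ × ℕ → ℝ) (k : ℕ), Inv Γ (lD χ ζ k) := fun ζ k => TLE_inv _ _ _ fun j => (hχ k j).2
  have hB := fun (m n : ℕ) => TLE_L hSRD hF hcd (Metric.closedBall (0 : V d) m) (isCompact_closedBall _ _) n
  choose Bs hBs0 hBs using hB
  obtain ⟨B0, hB00, hB0⟩ := TLE_L hSRD hF hcd K0 hFd.compact 0
  obtain ⟨c, C', hsum, hc0, hck, hcb⟩ := hF.sum K0 hFd.compact
  obtain ⟨η, hη⟩ : ∃ η : ℝ, ∑' k, c 0 k = η := ⟨_, rfl⟩
  have hη0 : 0 ≤ η := by
    rw [← hη]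
    exact tsum_nonneg (hc0 0)
  have hbd : ∀ (ζ : ℕ × ℕ → ℝ), (∀ q, |ζ q| ≤ 1) → ∀ k, ∀ x ∈ K0, |lD χ ζ k x| ≤ c 0 k := by
    intro ζ hζ k x hx
    have h := hck 0 k ζ hζ x hx
    rwa [norm_iteratedFDeriv_zero, Real.norm_eq_abs] at h
  obtain ⟨A2, hA2, ht2⟩ := TLE_tail (c 0) ((0 : ℕ) + 2) (C' 0) (1 / 8) (by norm_num) (by norm_num) (by norm_num) (hsum 0) (hc0 0) (hcb 0)
  -- large R
  have hlarge : ∀ a x : ℝ, 0 < x → ∀ᶠ R : ℝ in atTop, a ≤ R ^ x := fun a x hx =>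
    (tendsto_rpow_atTop hx).eventually (eventually_ge_atTop a)
  obtain ⟨R0, hR0⟩ := eventually_atTop.1 ((hlarge (2 * B0) (3 / 400) (by norm_num)).and ((hlarge (64 * A2) (1 / 2) (by norm_num)).and
    ((hlarge (4 * η) 7 (by norm_num)).and (hlarge 2 (3 / 400) (by norm_num)))))
  refine ⟨Bs, max 3 R0, le_max_left _ _, fun R K hR hK1 hK2 => ?_⟩
  have hR3 : 3 ≤ R := (le_max_left _ _).trans hR
  have hRp : 0 < R := by linarith
  have hR1 : 1 ≤ R := by linarith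
  obtain ⟨g0, g2, g3, g4⟩ := hR0 R ((le_max_right _ _).trans hR)
  have hdiv : R ^ (1 / 100 : ℝ) / R = R ^ (-1 + 1 / 100 : ℝ) := by
    rw [Real.rpow_add hRp, Real.rpow_neg_one]
    ring
  have hq0 : 0 ≤ R ^ (-1 + 1 / 400 : ℝ) := Real.rpow_nonneg hRp.le _
  have hq1 : R ^ (3 / 400 : ℝ) * R ^ (-1 + 1 / 400 : ℝ) = R ^ (1 / 100 : ℝ) / R := by
    rw [hdiv, ← Real.rpow_add hRp]
    congr 1
    norm_num
  have hpw : R ^ (-1 + 1 / 400 : ℝ) ≤ R ^ (1 / 100 : ℝ) / 2 / R := by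
    have h1 := mul_le_mul_of_nonneg_right g4 hq0
    rw [hq1] at h1
    have h2 : R ^ (1 / 100 : ℝ) / 2 / R = (R ^ (1 / 100 : ℝ) / R) / 2 := by ring
    rw [h2]
    linarith
  have hpwh : R ^ (1 / 100 : ℝ) / 2 / R ≤ R ^ (1 / 100 : ℝ) / R := by
    have h2 : R ^ (1 / 100 : ℝ) / 2 / R = (R ^ (1 / 100 : ℝ) / R) / 2 := by ring
    have h3 : 0 ≤ R ^ (1 / 100 : ℝ) / R := by positivity
    rw [h2]
    linarith
  have hpw0 : B0 * R ^ (-1 + 1 / 400 : ℝ) ≤ R ^ (1 / 100 : ℝ) / 2 / R := by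
    have h1 := mul_le_mul_of_nonneg_right g0 hq0
    rw [hq1] at h1
    have h2 : R ^ (1 / 100 : ℝ) / 2 / R = (R ^ (1 / 100 : ℝ) / R) / 2 := by ring
    rw [h2]
    linarith
  -- from bounds on compact sets to `SmS`
  have hSm : ∀ f : V d → ℝ, Inv Γ f → ContDiff ℝ ∞ f → DK K0 0 f (B0 * R ^ (-1 + 1 / 400 : ℝ)) →
      (∀ m n : ℕ, DK (Metric.closedBall (0 : V d) m) n f (Bs m n * R ^ (-1 + 1 / 400 : ℝ))) → SmS Γ Bs (R ^ (1 / 100 : ℝ) / 2) R f := by
    intro f h1 h2 h3 h4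
    refine ⟨h1, h2, fun x => ?_, fun m n x hx => ?_⟩
    · obtain ⟨γ, hγ⟩ := hFd.cover x
      have h := h3 (γ • x) hγ
      rw [norm_iteratedFDeriv_zero, Real.norm_eq_abs, h1 γ x] at h
      exact h.trans hpw0
    · exact (h4 m n x (mem_closedBall_zero_iff.2 hx)).trans (mul_le_mul_of_nonneg_left hpw (hBs0 m n))
  have hSm1 : ∀ f : V d → ℝ, SmS Γ Bs (R ^ (1 / 100 : ℝ) / 2) R f → SmS Γ Bs (R ^ (1 / 100 : ℝ)) R f := by
    intro f h
    obtain ⟨h1, h2, h3, h4⟩ := h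
    exact ⟨h1, h2, fun x => (h3 x).trans hpwh, fun m n x hx => (h4 m n x hx).trans (mul_le_mul_of_nonneg_left hpwh (hBs0 m n))⟩
  have iw : ∀ v : ℕ × ℕ → ℝ, Inv Γ (wD χ K v) := fun v γ x => Finset.sum_congr rfl fun k _ => hinv v k γ x
  have ib : ∀ v : ℕ × ℕ → ℝ, Inv Γ (bD χ K v) := fun v γ x => Finset.sum_congr rfl fun k _ => hinv v k γ x
  have ir : ∀ ζ : ℕ × ℕ → ℝ, Inv Γ (rD χ ζ) := fun ζ γ x => tsum_congr fun k => hinv ζ k γ x
  have iK : ∀ ξ : Fin (J K) → ℝ, Inv Γ (fun x => aN K * VF (χ K) ξ x) := fun ξ => TLE_inv _ _ _ fun j => (hχ K j).2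
  have cK : ∀ ξ : Fin (J K) → ℝ, ContDiff ℝ ∞ (fun x => aN K * VF (χ K) ξ x) := fun ξ => TLE_cd _ _ _ fun j => (hχ K j).1
  have cw : ∀ v : ℕ × ℕ → ℝ, ContDiff ℝ ∞ (wD χ K v) := fun v => by
    unfold wD
    exact ContDiff.sum fun k _ => hcd v k
  have cb : ∀ v : ℕ × ℕ → ℝ, ContDiff ℝ ∞ (bD χ K v) := fun v => by
    unfold bD
    exact ContDiff.sum fun k _ => hcd v k
  refine ⟨fun v ξ hv hξ => ?_, ?_⟩
  · refine hSm1 _ (hSm _ (fun γ x => ?_) ((cw v).add (cK ξ)) ((hB0 R K hR3 hK2).1 v ξ hv hξ) (fun m n => (hBs m n R K hR3 hK2).1 v ξ hv hξ))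
    have h1 := iw v γ x
    have h2 := iK ξ γ x
    show wD χ K v (γ • x) + aN K * VF (χ K) ξ (γ • x) = wD χ K v x + aN K * VF (χ K) ξ x
    rw [h1]
    have h2' : aN K * VF (χ K) ξ (γ • x) = aN K * VF (χ K) ξ x := h2
    rw [h2']
  · intro ζ v hζ hv hζv
    have hm0 : 0 < R ^ (-10 : ℝ) := Real.rpow_pos_of_pos hRp _
    have hR3p : 0 < R ^ (-3 : ℝ) := Real.rpow_pos_of_pos hRp _
    have hp6 : 4 * (R ^ (-10 : ℝ) * η) ≤ R ^ (-3 : ℝ) := by
      calc 4 * (R ^ (-10 : ℝ) * η) = 4 * η * R ^ (-10 : ℝ) := by ring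
        _ ≤ R ^ (7 : ℝ) * R ^ (-10 : ℝ) := mul_le_mul_of_nonneg_right g3 hm0.le
        _ = R ^ (-3 : ℝ) := by
            rw [← Real.rpow_add hRp]
            congr 1
            norm_num
    have hlev := fun k hk1 hk2 => TLE_lev χ R K hRp ζ v hζv k hk1 hk2
    have hsr := hSRD d (fun k => lD χ ζ k) (fun k => hcd ζ k) (by
      intro L hL
      obtain ⟨c', C'', h1, _, h3, _⟩ := hF.sum L hL
      exact ⟨c', h1, fun n k => h3 n k ζ hζ⟩)
    obtain ⟨hr1, hr2, hr3⟩ := hsr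
    refine ⟨hSm _ (fun γ x => ?_) (hr1.sub (cb v)) ((hB0 R K hR3 hK2).2 ζ v hζ hv hζv) (fun m n => (hBs m n R K hR3 hK2).2 ζ v hζ hv hζv), ?_⟩
    · show rD χ ζ (γ • x) - bD χ K v (γ • x) = rD χ ζ x - bD χ K v x
      rw [ir ζ γ x, ib v γ x]
    · -- values; first on K0
      have hval : ∀ z ∈ K0, |rD χ ζ z - bD χ K v z - (wD χ K v z + aN K * VF (χ K) (fun j => ζ (K, (j : ℕ))) z)| ≤ R ^ (-3 : ℝ) / 2 := by
        intro z hz
        have hone : ∀ k : ℕ, k ≤ 4 * K → k ≠ K → |lD χ ζ k z - lD χ v k z| ≤ R ^ (-10 : ℝ) * c 0 k := by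
          intro k hk1 hk2
          obtain ⟨u, hu1, hu2⟩ := hlev k hk1 hk2
          rw [hu2, abs_mul, abs_of_pos hm0]
          exact mul_le_mul_of_nonneg_left (hbd u hu1 k z hz) hm0.le
        have hsl : Summable fun k => lD χ ζ k z := (hsum 0).of_norm_bounded (fun k => hbd ζ hζ k z hz)
        have hsplit : rD χ ζ z = (∑ k ∈ Finset.range K, lD χ ζ k z + lD χ ζ K z + ∑ k ∈ Finset.Ioc K (4 * K), lD χ ζ k z) +
            ∑' k, lD χ ζ (k + (4 * K + 1)) z := by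
          unfold rD
          rw [← hsl.sum_add_tsum_nat_add (4 * K + 1)]
          congr 1
          rw [← Finset.sum_range_succ, Finset.range_eq_Ico, Finset.range_eq_Ico]
          have e : Finset.Ioc K (4 * K) = Finset.Ico (K + 1) (4 * K + 1) := by
            ext k
            rw [Finset.mem_Ioc, Finset.mem_Ico]
            omega
          rw [e]
          exact (Finset.sum_Ico_consecutive _ (by omega) (by omega)).symm
        have hdiff : rD χ ζ z - bD χ K v z - (wD χ K v z + aN K * VF (χ K) (fun j => ζ (K, (j : ℕ))) z) =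
            ∑ k ∈ Finset.range K, (lD χ ζ k z - lD χ v k z) + ∑ k ∈ Finset.Ioc K (4 * K), (lD χ ζ k z - lD χ v k z) +
              ∑' k, lD χ ζ (k + (4 * K + 1)) z := by
          have e : aN K * VF (χ K) (fun j => ζ (K, (j : ℕ))) z = lD χ ζ K z := rfl
          rw [e, hsplit, Finset.sum_sub_distrib, Finset.sum_sub_distrib]
          unfold bD wD
          ring
        rw [hdiff]
        have hp1 : |∑ k ∈ Finset.range K, (lD χ ζ k z - lD χ v k z)| ≤ R ^ (-10 : ℝ) * ∑ k ∈ Finset.range K, c 0 k := by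
          rw [Finset.mul_sum]
          refine (Finset.abs_sum_le_sum_abs _ _).trans (Finset.sum_le_sum fun k hk => ?_)
          rw [Finset.mem_range] at hk
          exact hone k (by omega) (by omega)
        have hp2 : |∑ k ∈ Finset.Ioc K (4 * K), (lD χ ζ k z - lD χ v k z)| ≤ R ^ (-10 : ℝ) * ∑ k ∈ Finset.Ioc K (4 * K), c 0 k := by
          rw [Finset.mul_sum]
          refine (Finset.abs_sum_le_sum_abs _ _).trans (Finset.sum_le_sum fun k hk => ?_)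
          rw [Finset.mem_Ioc] at hk
          exact hone k (by omega) (by omega)
        have hp12 : ∑ k ∈ Finset.range K, c 0 k + ∑ k ∈ Finset.Ioc K (4 * K), c 0 k ≤ η := by
          have hd : Disjoint (Finset.range K) (Finset.Ioc K (4 * K)) := by
            rw [Finset.disjoint_left]
            intro k h1 h2
            rw [Finset.mem_range] at h1
            rw [Finset.mem_Ioc] at h2
            omega
          rw [← Finset.sum_union hd, ← hη]
          exact (hsum 0).sum_le_tsum _ fun i _ => hc0 0 i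
        have hs4 : Summable fun k => c 0 (k + (4 * K + 1)) := (summable_nat_add_iff (4 * K + 1)).2 (hsum 0)
        have hp3 : |∑' k, lD χ ζ (k + (4 * K + 1)) z| ≤ ∑' k, c 0 (k + (4 * K + 1)) := by
          have h1 : ‖∑' k, lD χ ζ (k + (4 * K + 1)) z‖ ≤ ∑' k, c 0 (k + (4 * K + 1)) :=
            tsum_of_norm_bounded (f := fun k => lD χ ζ (k + (4 * K + 1)) z) hs4.hasSum
              (fun k => hbd ζ hζ (k + (4 * K + 1)) z hz)
          exact h1
        have hp4 : ∑' k, c 0 (k + (4 * K + 1)) ≤ 16 * A2 * R ^ (-(7 / 2) : ℝ) := by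
          refine (ht2 (4 * K + 1)).trans ?_
          have e1 : ((2 : ℝ) ^ (4 * K + 1)) ^ (-(1 - 1 / 8 : ℝ)) ≤ ((2 : ℝ) ^ K) ^ (-(7 / 2) : ℝ) := by
            have e2 : ((2 : ℝ) ^ K) ^ (-(7 / 2) : ℝ) = ((2 : ℝ) ^ (4 * K)) ^ (-(1 - 1 / 8 : ℝ)) := by
              rw [mul_comm 4 K, pow_mul, ← Real.rpow_natCast ((2 : ℝ) ^ K) 4, ← Real.rpow_mul (by positivity)]
              congr 1
              norm_num
            rw [e2]
            refine Real.rpow_le_rpow_of_nonpos (by positivity) ?_ (by norm_num)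
            exact pow_le_pow_right₀ (by norm_num) (by omega)
          have e3 := TLN_pow R (7 / 2) K hR3 hK2 (by norm_num)
          have e4 : (2 : ℝ) ^ (7 / 2 : ℝ) ≤ 16 := by
            calc (2 : ℝ) ^ (7 / 2 : ℝ) ≤ (2 : ℝ) ^ (4 : ℝ) := Real.rpow_le_rpow_of_exponent_le (by norm_num) (by norm_num)
              _ = 16 := by norm_num
          have e5 : 0 ≤ R ^ (-(7 / 2) : ℝ) := Real.rpow_nonneg hRp.le _
          calc A2 * ((2 : ℝ) ^ (4 * K + 1)) ^ (-(1 - 1 / 8 : ℝ)) ≤ A2 * ((2 : ℝ) ^ K) ^ (-(7 / 2) : ℝ) :=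
                mul_le_mul_of_nonneg_left e1 hA2
            _ ≤ A2 * (2 ^ (7 / 2 : ℝ) * R ^ (-(7 / 2) : ℝ)) := mul_le_mul_of_nonneg_left e3 hA2
            _ ≤ A2 * (16 * R ^ (-(7 / 2) : ℝ)) := mul_le_mul_of_nonneg_left (mul_le_mul_of_nonneg_right e4 e5) hA2
            _ = 16 * A2 * R ^ (-(7 / 2) : ℝ) := by ring
        have hp5 : 4 * (16 * A2 * R ^ (-(7 / 2) : ℝ)) ≤ R ^ (-3 : ℝ) := by
          have e5 : 0 ≤ R ^ (-(7 / 2) : ℝ) := Real.rpow_nonneg hRp.le _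
          calc 4 * (16 * A2 * R ^ (-(7 / 2) : ℝ)) = 64 * A2 * R ^ (-(7 / 2) : ℝ) := by ring
            _ ≤ R ^ (1 / 2 : ℝ) * R ^ (-(7 / 2) : ℝ) := mul_le_mul_of_nonneg_right g2 e5
            _ = R ^ (-3 : ℝ) := by
                rw [← Real.rpow_add hRp]
                congr 1
                norm_num
        have hp7 : R ^ (-10 : ℝ) * (∑ k ∈ Finset.range K, c 0 k + ∑ k ∈ Finset.Ioc K (4 * K), c 0 k) ≤ R ^ (-10 : ℝ) * η :=
          mul_le_mul_of_nonneg_left hp12 hm0.le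
        rw [mul_add] at hp7
        have h1 := abs_add_le (∑ k ∈ Finset.range K, (lD χ ζ k z - lD χ v k z) + ∑ k ∈ Finset.Ioc K (4 * K), (lD χ ζ k z - lD χ v k z))
          (∑' k, lD χ ζ (k + (4 * K + 1)) z)
        have h2 := abs_add_le (∑ k ∈ Finset.range K, (lD χ ζ k z - lD χ v k z)) (∑ k ∈ Finset.Ioc K (4 * K), (lD χ ζ k z - lD χ v k z))
        linarith
      intro x
      obtain ⟨γ, hγ⟩ := hFd.cover x
      have h := hval (γ • x) hγ
      have i4 : aN K * VF (χ K) (fun j => ζ (K, (j : ℕ))) (γ • x) = aN K * VF (χ K) (fun j => ζ (K, (j : ℕ))) x := hinv ζ K γ x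
      rw [ir ζ γ x, ib v γ x, iw v γ x, i4] at h
      exact h

end Pool.Agent.VDI
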